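import Mathlib
import Pool.Agent.helper58.FI3.SpecF3

set_option autoImplicit false

namespace Pool.Agent.FI3

open Pool.Agent.helper58.DC Pool.Agent.DI Pool.Agent.GR Pool.Agent.OB Pool.Agent.DR Pool.Agent.FI

open Classical in
theorem FXC3_inner (hFKE3 : FKE3_stmt) {G : Type} [Group G] [Finite G] [Fintype G]
    (K Z : Subgroup G) (hZK : Z ≤ K) (hc : ∀ z ∈ Z, ∀ k ∈ K, k * z = z * k) (ψ : G → ℂ)
    (hψ : ψ ∈ IrrOn K) (hn : ψ 1 ≠ 0) :
    ∑ z : Z, ψ z = if (∀ z : Z, ψ z = (((1 : Z →* ℂˣ) z : ℂˣ) : ℂ) * ψ 1) then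
      (Nat.card Z : ℂ) * ψ 1 else 0 := by
  have hm := (hFKE3 G K Z hZK hc ψ hψ).1
  split_ifs with h
  · have h1 : ∀ z : Z, ψ z = ψ 1 := fun z => by rw [h z]; simp
    rw [Finset.sum_congr rfl (fun z _ => h1 z), Finset.sum_const, nsmul_eq_mul, Finset.card_univ,
      ← Nat.card_eq_fintype_card]
  · have h2 : ∃ z : Z, ψ z ≠ ψ 1 := by
      by_contra hcon
      push Not at hcon
      exact h fun z => by rw [hcon z]; simp
    obtain ⟨z0, hz0⟩ := h2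
    have h3 : ∑ z : Z, ψ ((z0 * z : Z) : G) = ∑ z : Z, ψ z :=
      Fintype.sum_equiv (Equiv.mulLeft z0) _ _ (fun z => rfl)
    have h4 : (∑ z : Z, ψ ((z0 * z : Z) : G)) * ψ 1 = ψ z0 * ∑ z : Z, ψ z := by
      rw [Finset.sum_mul, Finset.mul_sum]
      refine Finset.sum_congr rfl fun z _ => ?_
      rw [Subgroup.coe_mul]
      exact hm z0 z0.2 z
    rw [h3] at h4
    have h5 : (ψ z0 - ψ 1) * ∑ z : Z, ψ z = 0 := by
      rw [sub_mul, ← h4]
      ring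
    rcases mul_eq_zero.1 h5 with h6 | h6
    · exact absurd (sub_eq_zero.1 h6) hz0
    · exact h6

theorem FXC3 (hBR0 : BR0_stmt) (hFBC : FBC_stmt) (hFKE3 : FKE3_stmt) (hIF : IF_stmt) : FXC3_stmt := by
  classical
  intro p M hs G _ _ D K Z θ hZp hZK hc hg
  letI : Fintype G := Fintype.ofFinite G
  have hBC : BC M K (Bl M K θ) := (hFBC p M hs G K θ 1).1
  have hfin : (Bl M K θ).Finite :=
    Set.finite_of_ncard_pos (by rw [hg.card]; exact Nat.card_pos)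
  obtain ⟨ψ0, hψ0⟩ : (Bl M K θ).Nonempty :=
    Set.nonempty_of_ncard_ne_zero (by rw [hg.card]; exact Nat.card_pos.ne')
  have hpr : p.Prime := hs.pr
  have hreg1 : PReg p (1 : G) := by
    unfold PReg
    rw [orderOf_one]
    exact hpr.one_lt.ne' ∘ Nat.dvd_one.1
  have hval : ∀ ψ ∈ Bl M K θ, ψ 1 = ψ0 1 := fun ψ hψ => hg.reg ψ hψ ψ0 hψ0 1 K.one_mem hreg1
  have hn : ψ0 1 ≠ 0 := by
    obtain ⟨n, hn, e⟩ := ((hIF G K).2 ψ0 hψ0.1).1
    rw [e]
    exact_mod_cast hn.ne'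
  have hzero : ∀ z ∈ Z, z ≠ 1 → ∑ ψ ∈ hfin.toFinset, ψ z = 0 := by
    intro z hz hz1
    have hPz : PEl p z := by
      obtain ⟨k, hk⟩ := hZp ⟨z, hz⟩
      exact ⟨k, by simpa using congrArg (Subtype.val) hk⟩
    have h1 := hBR0 p M hs G K (Bl M K θ) hBC z (hZK hz) 1 K.one_mem 1 K.one_mem 1 K.one_mem hPz
      ⟨0, by simp⟩ hreg1 hreg1 (Commute.one_right z) (Commute.one_right 1) (by
        intro h _ e
        apply hz1
        have h2 : z = h * (h⁻¹ * z * h) * h⁻¹ := by group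
        rw [h2, e]
        group)
    unfold Sf at h1
    rw [finsum_mem_eq_finite_toFinset_sum _ hfin] at h1
    have h2 : ∑ ψ ∈ hfin.toFinset, ψ (z * 1) * ψ (1 * 1)⁻¹ = (∑ ψ ∈ hfin.toFinset, ψ z) * ψ0 1 := by
      rw [Finset.sum_mul]
      refine Finset.sum_congr rfl fun ψ hψ => ?_
      rw [mul_one, mul_one, inv_one, hval ψ (hfin.mem_toFinset.1 hψ)]
    rw [h2] at h1
    exact (mul_eq_zero.1 h1).resolve_right hn
  have hL : ∑ z : Z, ∑ ψ ∈ hfin.toFinset, ψ z = (Nat.card D : ℂ) * ψ0 1 := by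
    rw [Finset.sum_eq_single (1 : Z)]
    · rw [Subgroup.coe_one, Finset.sum_congr rfl (fun ψ hψ => hval ψ (hfin.mem_toFinset.1 hψ)),
        Finset.sum_const, nsmul_eq_mul, ← Set.ncard_eq_toFinset_card _ hfin, hg.card]
    · intro z _ hz
      exact hzero z z.2 (fun h => hz (Subtype.ext h))
    · intro h
      exact absurd (Finset.mem_univ _) h
  have hR : ∑ z : Z, ∑ ψ ∈ hfin.toFinset, ψ z =
      ((XL M K θ Z 1).ncard : ℂ) * ((Nat.card Z : ℂ) * ψ0 1) := by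
    rw [Finset.sum_comm]
    have h1 : ∀ ψ ∈ hfin.toFinset, ∑ z : Z, ψ z =
        if (∀ z : Z, ψ z = (((1 : Z →* ℂˣ) z : ℂˣ) : ℂ) * ψ 1) then
          (Nat.card Z : ℂ) * ψ0 1 else 0 := by
      intro ψ hψ
      have hψ' := hfin.mem_toFinset.1 hψ
      rw [FXC3_inner hFKE3 K Z hZK hc ψ hψ'.1 (by rw [hval ψ hψ']; exact hn), hval ψ hψ']
    rw [Finset.sum_congr rfl h1, ← Finset.sum_filter, Finset.sum_const, nsmul_eq_mul]
    have h2 : XL M K θ Z 1 = ((hfin.toFinset.filter (fun ψ : G → ℂ =>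
        ∀ z : Z, ψ z = (((1 : Z →* ℂˣ) z : ℂˣ) : ℂ) * ψ 1) : Finset (G → ℂ)) : Set (G → ℂ)) := by
      ext ψ
      simp [XL]
    rw [h2, Set.ncard_coe_finset]
  have hF : ((XL M K θ Z 1).ncard : ℂ) * (Nat.card Z : ℂ) = (Nat.card D : ℂ) := by
    have h := hL.symm.trans hR
    have h' : ((Nat.card D : ℂ) - ((XL M K θ Z 1).ncard : ℂ) * (Nat.card Z : ℂ)) * ψ0 1 = 0 := by
      rw [sub_mul, h]
      ring
    exact (sub_eq_zero.1 ((mul_eq_zero.1 h').resolve_right hn)).symm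
  exact_mod_cast hF

end Pool.Agent.FI3
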